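import Mathlib

/-!
# Bounded matrix products with chosen factors need not be uniformly bounded

Basis `u, g, e` of `ℝ³`.  `𝒜 = {I, b}` with `b : u ↦ 0, g ↦ 0, e ↦ 2u` and
`ℬ = {B₁, B₀}` with `B₁ : u ↦ u + g, g ↦ g, e ↦ e` and `B₀ : u ↦ e, g ↦ 0, e ↦ e`.
-/

namespace Pool.Agent.Results.MP_8c8deb_an.NoUniformBound

open Set Matrix

/-- `P A B n = A_n B_n ⋯ A_1 B_1`, where `A_k = A (k - 1)` and `B_k = B (k - 1)`. -/
noncomputable def P {d : ℕ} (A B : ℕ → Matrix (Fin d) (Fin d) ℝ) :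
    ℕ → Matrix (Fin d) (Fin d) ℝ
  | 0 => 1
  | n + 1 => A n * B n * P A B n

/-- Condition (H) for a norm `N`: every sequence in `𝒜` admits a sequence in `ℬ` with bounded
products. -/
def CondH {d : ℕ} (N : Seminorm ℝ (Matrix (Fin d) (Fin d) ℝ))
    (𝒜 ℬ : Set (Matrix (Fin d) (Fin d) ℝ)) : Prop :=
  ∀ A : ℕ → Matrix (Fin d) (Fin d) ℝ, (∀ n, A n ∈ 𝒜) →
    ∃ B : ℕ → Matrix (Fin d) (Fin d) ℝ, (∀ n, B n ∈ ℬ) ∧ ∃ C : ℝ, ∀ n ≥ 1, N (P A B n) ≤ C

/-- The conclusion of the question for a norm `N`: one constant for all sequences in `𝒜`. -/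
def UniformBound {d : ℕ} (N : Seminorm ℝ (Matrix (Fin d) (Fin d) ℝ))
    (𝒜 ℬ : Set (Matrix (Fin d) (Fin d) ℝ)) : Prop :=
  ∃ C : ℝ, 0 < C ∧ ∀ A : ℕ → Matrix (Fin d) (Fin d) ℝ, (∀ n, A n ∈ 𝒜) →
    ∃ B : ℕ → Matrix (Fin d) (Fin d) ℝ, (∀ n, B n ∈ ℬ) ∧ ∀ n ≥ 1, N (P A B n) ≤ C

/-- The matrix `b`. -/
def b : Matrix (Fin 3) (Fin 3) ℝ := !![0, 0, 2; 0, 0, 0; 0, 0, 0]
/-- The matrix `B₁`. -/
def B₁ : Matrix (Fin 3) (Fin 3) ℝ := !![1, 0, 0; 1, 1, 0; 0, 0, 1]
/-- The matrix `B₀`. -/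
def B₀ : Matrix (Fin 3) (Fin 3) ℝ := !![0, 0, 0; 0, 0, 0; 1, 0, 1]

lemma B₀_idem : B₀ * B₀ = B₀ := by
  ext i j; fin_cases i <;> fin_cases j <;> simp [B₀, Matrix.mul_apply, Fin.sum_univ_three]

lemma B₁_row (X : Matrix (Fin 3) (Fin 3) ℝ) (j : Fin 3) : (B₁ * X) 2 j = X 2 j := by
  simp [B₁, Matrix.mul_apply, Fin.sum_univ_three]

lemma b_row (X : Matrix (Fin 3) (Fin 3) ℝ) (j : Fin 3) :
    (b * X) 0 j = 2 * X 2 j ∧ (b * X) 1 j = 0 ∧ (b * X) 2 j = 0 := by
  simp [b, Matrix.mul_apply, Fin.sum_univ_three]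

/-- An eventually constant sequence of matrices is bounded in every seminorm. -/
lemma bdd_of_eventually {d : ℕ} (N : Seminorm ℝ (Matrix (Fin d) (Fin d) ℝ))
    (Q : ℕ → Matrix (Fin d) (Fin d) ℝ) (n₀ : ℕ) (h : ∀ n ≥ n₀, Q n = Q n₀) :
    ∃ C : ℝ, ∀ n ≥ 1, N (Q n) ≤ C := by
  refine ⟨∑ k ∈ Finset.range (n₀ + 1), N (Q k), fun n _ => ?_⟩
  rcases le_or_gt n n₀ with hn | hn
  · exact Finset.single_le_sum (f := fun k => N (Q k)) (fun k _ => apply_nonneg N _)
      (Finset.mem_range.2 (by omega))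
  · rw [h n hn.le]
    exact Finset.single_le_sum (f := fun k => N (Q k)) (fun k _ => apply_nonneg N _)
      (Finset.mem_range.2 (by omega))

lemma condH (N : Seminorm ℝ (Matrix (Fin 3) (Fin 3) ℝ)) :
    CondH N {1, b} {B₁, B₀} := by
  intro A hA
  by_cases hfin : ∃ n₀, ∀ n ≥ n₀, A n = 1
  · obtain ⟨n₀, hn₀⟩ := hfin
    refine ⟨fun _ => B₀, fun n => by simp, ?_⟩
    apply bdd_of_eventually N _ (n₀ + 1)
    have key : ∀ n ≥ n₀ + 1, P A (fun _ => B₀) n = B₀ * P A (fun _ => B₀) n₀ := by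
      intro n hn
      induction n, hn using Nat.le_induction with
      | base => simp [P, hn₀ n₀ le_rfl]
      | succ n hn ih =>
        rw [P, hn₀ n (by omega), ih, one_mul, ← Matrix.mul_assoc, B₀_idem]
    intro n hn
    rw [key n hn, key (n₀ + 1) le_rfl]
  · push Not at hfin
    have hb : ∀ n₀, ∃ n ≥ n₀, A n = b := by
      intro n₀
      obtain ⟨n, hn, h⟩ := hfin n₀
      rcases hA n with h' | h'
      · exact absurd h' h
      · exact ⟨n, hn, h'⟩
    refine ⟨fun _ => B₁, fun n => by simp, ?_⟩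
    obtain ⟨n₁, -, h₁⟩ := hb 0
    obtain ⟨n₂, h₁₂, h₂⟩ := hb (n₁ + 1)
    have key1 : ∀ n ≥ n₁ + 1, ∀ j, P A (fun _ => B₁) n 2 j = 0 := by
      intro n hn
      induction n, hn using Nat.le_induction with
      | base =>
        intro j
        rw [P, h₁, Matrix.mul_assoc]
        exact (b_row _ j).2.2
      | succ n hn ih =>
        intro j
        rw [P]
        rcases hA n with h' | h'
        · rw [h', one_mul, B₁_row, ih j]
        · rw [mem_singleton_iff] at h'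
          rw [h', Matrix.mul_assoc]
          exact (b_row _ j).2.2
    have key2 : P A (fun _ => B₁) (n₂ + 1) = 0 := by
      ext i j
      rw [P, h₂, Matrix.mul_assoc]
      have h3 := key1 n₂ h₁₂ j
      obtain ⟨e0, e1, e2⟩ := b_row (B₁ * P A (fun _ => B₁) n₂) j
      rw [B₁_row, h3, mul_zero] at e0
      fin_cases i
      · exact e0
      · exact e1
      · exact e2
    have key3 : ∀ n ≥ n₂ + 1, P A (fun _ => B₁) n = 0 := by
      intro n hn
      induction n, hn using Nat.le_induction with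
      | base => exact key2
      | succ n hn ih => rw [P, ih, Matrix.mul_zero]
    apply bdd_of_eventually N _ (n₂ + 1)
    intro n hn
    rw [key3 n hn, key2]

/-- The periodic sequence `(I^K b)^∞`. -/
def seqA (K : ℕ) (n : ℕ) : Matrix (Fin 3) (Fin 3) ℝ := if n % (K + 1) = K then b else 1

lemma P_col (A B : ℕ → Matrix (Fin 3) (Fin 3) ℝ) (n : ℕ) (i : Fin 3) :
    P A B (n + 1) i 2 = ∑ k, (A n * B n) i k * P A B n k 2 := by
  rw [P, Matrix.mul_apply]

lemma block (K : ℕ) (D : ℝ) (hK : D < K) (B : ℕ → Matrix (Fin 3) (Fin 3) ℝ)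
    (hB : ∀ n, B n ∈ ({B₁, B₀} : Set (Matrix (Fin 3) (Fin 3) ℝ)))
    (hD : ∀ n ≥ 1, ∀ i j, |P (seqA K) B n i j| ≤ D) (j : ℕ) :
    P (seqA K) B ((j + 1) * (K + 1)) 0 2 = 2 ^ (j + 1) ∧
    P (seqA K) B ((j + 1) * (K + 1)) 1 2 = 0 ∧ P (seqA K) B ((j + 1) * (K + 1)) 2 2 = 0 := by
  -- one step with `A = I`
  have hI : ∀ n, seqA K n = 1 →
      (P (seqA K) B (n + 1) 0 2 = P (seqA K) B n 0 2 ∧
        P (seqA K) B (n + 1) 1 2 = P (seqA K) B n 0 2 + P (seqA K) B n 1 2 ∧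
        P (seqA K) B (n + 1) 2 2 = P (seqA K) B n 2 2) ∨
      (P (seqA K) B (n + 1) 0 2 = 0 ∧ P (seqA K) B (n + 1) 1 2 = 0 ∧
        P (seqA K) B (n + 1) 2 2 = P (seqA K) B n 0 2 + P (seqA K) B n 2 2) := by
    intro n hn
    rcases hB n with h | h
    · left
      simp only [P_col, hn, h, one_mul]
      simp [B₁, Fin.sum_univ_three]
    · right
      rw [mem_singleton_iff] at h
      simp only [P_col, hn, h, one_mul]
      simp [B₀, Fin.sum_univ_three]
  have hb : ∀ n, seqA K n = b → P (seqA K) B n 0 2 = 0 →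
      P (seqA K) B (n + 1) 0 2 = 2 * P (seqA K) B n 2 2 ∧
        P (seqA K) B (n + 1) 1 2 = 0 ∧ P (seqA K) B (n + 1) 2 2 = 0 := by
    intro n hn h0
    rcases hB n with h | h
    · simp only [P_col, hn, h]
      simp [B₁, b, Matrix.mul_apply, Fin.sum_univ_three]
    · rw [mem_singleton_iff] at h
      simp only [P_col, hn, h]
      simp [B₀, b, Matrix.mul_apply, Fin.sum_univ_three, h0]
  have hmod : ∀ j i : ℕ, i < K → seqA K (j * (K + 1) + i) = 1 := by
    intro j i hi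
    have : (j * (K + 1) + i) % (K + 1) = i := by
      rw [Nat.add_comm, Nat.add_mul_mod_self_right, Nat.mod_eq_of_lt (by omega)]
    rw [seqA, this, if_neg (by omega)]
  have hmodK : ∀ j : ℕ, seqA K (j * (K + 1) + K) = b := by
    intro j
    have : (j * (K + 1) + K) % (K + 1) = K := by
      rw [Nat.add_comm, Nat.add_mul_mod_self_right, Nat.mod_eq_of_lt (by omega)]
    rw [seqA, this, if_pos rfl]
  induction j with
  | zero =>
    have h0 : ∀ i ≤ K, P (seqA K) B i 0 2 = 0 ∧ P (seqA K) B i 1 2 = 0 ∧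
        P (seqA K) B i 2 2 = 1 := by
      intro i
      induction i with
      | zero => intro _; simp [P]
      | succ i ih =>
        intro hi
        obtain ⟨a0, a1, a2⟩ := ih (by omega)
        have := hmod 0 i (by omega)
        rw [zero_mul, zero_add] at this
        rcases hI i this with ⟨c0, c1, c2⟩ | ⟨c0, c1, c2⟩
        · rw [c0, c1, c2, a0, a1, a2]; simp
        · rw [c0, c1, c2, a0, a2]; simp
    obtain ⟨a0, a1, a2⟩ := h0 K le_rfl
    have h1 := hmodK 0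
    rw [zero_mul, zero_add] at h1
    obtain ⟨c0, c1, c2⟩ := hb K h1 a0
    have e : (0 + 1) * (K + 1) = K + 1 := by ring
    rw [e, c0, c1, c2, a2]
    simp
  | succ j ih =>
    set m := (j + 1) * (K + 1) with hm
    have h0 : ∀ i ≤ K,
        (P (seqA K) B (m + i) 0 2 = 2 ^ (j + 1) ∧ P (seqA K) B (m + i) 1 2 = i * 2 ^ (j + 1) ∧
          P (seqA K) B (m + i) 2 2 = 0) ∨
        (P (seqA K) B (m + i) 0 2 = 0 ∧ P (seqA K) B (m + i) 1 2 = 0 ∧
          P (seqA K) B (m + i) 2 2 = 2 ^ (j + 1)) := by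
      intro i
      induction i with
      | zero => intro _; left; simpa using ih
      | succ i ihi =>
        intro hi
        have h1 := hmod (j + 1) i (by omega)
        rcases ihi (by omega) with ⟨a0, a1, a2⟩ | ⟨a0, a1, a2⟩
        · rcases hI (m + i) h1 with ⟨c0, c1, c2⟩ | ⟨c0, c1, c2⟩
          · left
            rw [← Nat.add_assoc, c0, c1, c2, a0, a1, a2]
            refine ⟨rfl, by push_cast; ring, rfl⟩
          · right
            rw [← Nat.add_assoc, c0, c1, c2, a0, a2]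
            simp
        · right
          rcases hI (m + i) h1 with ⟨c0, c1, c2⟩ | ⟨c0, c1, c2⟩
          · rw [← Nat.add_assoc, c0, c1, c2, a0, a1, a2]; simp
          · rw [← Nat.add_assoc, c0, c1, c2, a0, a2]; simp
    have hfin := h0 K le_rfl
    have h2 : P (seqA K) B (m + K) 0 2 = 0 ∧ P (seqA K) B (m + K) 1 2 = 0 ∧
          P (seqA K) B (m + K) 2 2 = 2 ^ (j + 1) := by
      rcases hfin with ⟨a0, a1, a2⟩ | h
      · exfalso
        have hbd := hD (m + K) (by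
          have : 1 ≤ m := by rw [hm]; exact Nat.mul_pos (by omega) (by omega)
          omega) 1 2
        rw [a1, abs_of_nonneg (by positivity)] at hbd
        have : (1 : ℝ) ≤ 2 ^ (j + 1) := one_le_pow₀ (by norm_num)
        nlinarith [Nat.cast_nonneg (α := ℝ) K]
      · exact h
    obtain ⟨a0, a1, a2⟩ := h2
    obtain ⟨c0, c1, c2⟩ := hb (m + K) (hmodK (j + 1)) a0
    have e : (j + 1 + 1) * (K + 1) = m + K + 1 := by rw [hm]; ring
    rw [e, c0, c1, c2, a2]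
    refine ⟨by ring, rfl, rfl⟩

lemma sum_le (N : Seminorm ℝ (Matrix (Fin 3) (Fin 3) ℝ)) (s : Finset (Fin 3))
    (f : Fin 3 → Matrix (Fin 3) (Fin 3) ℝ) : N (∑ i ∈ s, f i) ≤ ∑ i ∈ s, N (f i) :=
  Finset.le_sum_of_subadditive N (map_zero N).le (map_add_le_add N) s f

/-- In finite dimension a norm dominates the entries. -/
lemma entry_le (N : Seminorm ℝ (Matrix (Fin 3) (Fin 3) ℝ)) (hN : ∀ M, N M = 0 → M = 0) :
    ∃ c : ℝ, 0 < c ∧ ∀ M : Matrix (Fin 3) (Fin 3) ℝ, ∀ i j, |M i j| ≤ c * N M := by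
  classical
  -- work in the model space `Fin 3 → Fin 3 → ℝ` with its sup norm
  let E := Fin 3 → Fin 3 → ℝ
  let N' : E → ℝ := fun f => N (Matrix.of f)
  have hup : ∃ C : ℝ, 0 ≤ C ∧ ∀ f : E, N' f ≤ C * ‖f‖ := by
    refine ⟨∑ i, ∑ j, N (Matrix.single i j (1 : ℝ)), by positivity, fun f => ?_⟩
    have h1 : (Matrix.of f : Matrix (Fin 3) (Fin 3) ℝ)
        = ∑ i, ∑ j, f i j • Matrix.single i j (1 : ℝ) := by
      conv_lhs => rw [Matrix.matrix_eq_sum_single (Matrix.of f)]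
      simp [Matrix.smul_single]
    calc N' f = N (∑ i, ∑ j, f i j • Matrix.single i j (1 : ℝ)) := by
          show N (Matrix.of f) = _
          rw [h1]
      _ ≤ ∑ i, N (∑ j, f i j • Matrix.single i j (1 : ℝ)) := sum_le N _ _
      _ ≤ ∑ i, ∑ j, N (f i j • Matrix.single i j (1 : ℝ)) :=
          Finset.sum_le_sum fun i _ => sum_le N _ _
      _ ≤ ∑ i, ∑ j, N (Matrix.single i j (1 : ℝ)) * ‖f‖ := by
          refine Finset.sum_le_sum fun i _ => Finset.sum_le_sum fun j _ => ?_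
          rw [map_smul_eq_mul, mul_comm]
          refine mul_le_mul_of_nonneg_left ?_ (apply_nonneg N _)
          exact (norm_le_pi_norm (f i) j).trans (norm_le_pi_norm f i)
      _ = _ := by simp only [Finset.sum_mul]
  obtain ⟨C, hC, hup⟩ := hup
  have hcont : Continuous N' := by
    rw [continuous_iff_continuousAt]
    intro f
    rw [ContinuousAt, tendsto_iff_norm_sub_tendsto_zero]
    have hsub : ∀ g : E, ‖N' g - N' f‖ ≤ C * ‖g - f‖ := by
      intro g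
      rw [Real.norm_eq_abs]
      refine (abs_sub_map_le_sub N _ _).trans ?_
      exact hup (g - f)
    have ht : Filter.Tendsto (fun g : E => C * ‖g - f‖) (nhds f) (nhds 0) := by
      have : Continuous fun g : E => C * ‖g - f‖ := by fun_prop
      simpa using this.tendsto f
    exact squeeze_zero (fun g => norm_nonneg _) hsub ht
  obtain ⟨f₀, hf₀, hmin⟩ := (isCompact_sphere (0 : E) 1).exists_isMinOn
    (NormedSpace.sphere_nonempty.2 zero_le_one) hcont.continuousOn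
  have hpos : 0 < N' f₀ := by
    refine lt_of_le_of_ne (apply_nonneg N _) fun h => ?_
    have : (Matrix.of f₀ : Matrix (Fin 3) (Fin 3) ℝ) = 0 := hN _ h.symm
    have h0 : f₀ = 0 := this
    rw [mem_sphere_zero_iff_norm, h0, norm_zero] at hf₀
    exact zero_ne_one hf₀
  refine ⟨1 / N' f₀, by positivity, fun M i j => ?_⟩
  obtain ⟨g, hg⟩ : ∃ g : E, g = fun i j => M i j := ⟨_, rfl⟩
  have hNM : N' g = N M := by rw [hg]; rfl
  have hM : |M i j| ≤ ‖g‖ := by
    have h1 : ‖g i j‖ ≤ ‖g i‖ := norm_le_pi_norm (g i) j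
    have h2 : ‖g i‖ ≤ ‖g‖ := norm_le_pi_norm g i
    have h3 : ‖g i j‖ = |M i j| := by rw [hg]; rfl
    rw [← h3]; exact h1.trans h2
  refine hM.trans ?_
  by_cases h0 : ‖g‖ = 0
  · rw [h0]; exact mul_nonneg (by positivity) (apply_nonneg N _)
  have hMpos : 0 < ‖g‖ := lt_of_le_of_ne (norm_nonneg _) (Ne.symm h0)
  have hs : (‖g‖⁻¹ • g) ∈ Metric.sphere (0 : E) 1 := by
    rw [mem_sphere_zero_iff_norm, norm_smul, norm_inv, norm_norm, inv_mul_cancel₀ h0]
  have h1 := hmin hs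
  have h2 : N' (‖g‖⁻¹ • g) = ‖g‖⁻¹ * N' g := by
    show N (Matrix.of (‖g‖⁻¹ • g)) = ‖g‖⁻¹ * N (Matrix.of g)
    have : (Matrix.of (‖g‖⁻¹ • g) : Matrix (Fin 3) (Fin 3) ℝ) = ‖g‖⁻¹ • Matrix.of g := rfl
    rw [this, map_smul_eq_mul, norm_inv, norm_norm]
  have h3 : N' f₀ ≤ ‖g‖⁻¹ * N M := by rw [← hNM, ← h2]; exact h1
  rw [one_div, inv_mul_eq_div, le_div_iff₀ hpos]
  rw [inv_mul_eq_div, le_div_iff₀ hMpos] at h3
  linarith

/-- There are finite nonempty sets `𝒜`, `ℬ` of real `3 × 3` matrices which satisfy condition (H),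
for every norm, but admit no uniform bound, for any norm. -/
theorem result : ∃ (d : ℕ) (𝒜 ℬ : Set (Matrix (Fin d) (Fin d) ℝ)),
    1 ≤ d ∧ 𝒜.Finite ∧ 𝒜.Nonempty ∧ ℬ.Finite ∧ ℬ.Nonempty ∧
    ∀ N : Seminorm ℝ (Matrix (Fin d) (Fin d) ℝ), (∀ M, N M = 0 → M = 0) →
      CondH N 𝒜 ℬ ∧ ¬ UniformBound N 𝒜 ℬ := by
  refine ⟨3, {1, b}, {B₁, B₀}, by norm_num, by simp, by simp, by simp, by simp, ?_⟩
  intro N hN
  refine ⟨condH N, ?_⟩
  rintro ⟨C, hC, h⟩
  obtain ⟨c, hc, hent⟩ := entry_le N hN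
  obtain ⟨K, hK⟩ := exists_nat_gt (c * C)
  obtain ⟨B, hB, hbd⟩ := h (seqA K) (fun n => by
    unfold seqA; split_ifs <;> simp)
  have hD : ∀ n ≥ 1, ∀ i j, |P (seqA K) B n i j| ≤ c * C := fun n hn i j =>
    (hent _ i j).trans (mul_le_mul_of_nonneg_left (hbd n hn) hc.le)
  obtain ⟨j, hj⟩ := pow_unbounded_of_one_lt (c * C) (one_lt_two (α := ℝ))
  have h1 := (block K (c * C) hK B hB hD j).1
  have h2 := hD ((j + 1) * (K + 1)) (Nat.mul_pos (by omega) (by omega)) 0 2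
  rw [h1, abs_of_nonneg (by positivity), pow_succ] at h2
  have : (0 : ℝ) < 2 ^ j := by positivity
  linarith

end Pool.Agent.Results.MP_8c8deb_an.NoUniformBound
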